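import Pool.Agent.H88.ST.Hess

/-!
# The prequantization bundle over the four-torus has no Stein filling

Let `T⁴ = ℝ⁴/ℤ⁴` with coordinates `(x₁, y₁, x₂, y₂)` and `ω = dx₁ ∧ dy₁ + dx₂ ∧ dy₂`.  The principal
circle bundle `P → T⁴` with first Chern class `[ω]` is the quotient of `ℝ⁵`, with coordinates
`q = (x₁, y₁, x₂, y₂, θ)`, by the group of the maps `deck n`, `n ∈ ℤ⁵`, and the form
`alpha = dθ + x₁ dy₁ + x₂ dy₂` descends to a connection form on `P` whose curvature is `ω`.

A Stein filling of `(P, ker alpha)` is a compact sublevel set `W = {φ ≤ c}` in a complex 3-manifold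
`X`, where `φ` is smooth, strictly plurisubharmonic on `W`, and has `c` as a regular value, together
with a contactomorphism `P → {φ = c} = ∂W`; such a contactomorphism is the same as a smooth
immersion `f : ℝ⁵ → X` with image `{φ = c}` whose fibres are the orbits of the deck group and which
matches `ker alpha` with the complex tangencies `ker (dφ ∘ i)` of `∂W`.
-/

open Set
open scoped Manifold ContDiff

namespace Pool.Agent.Results.MP_4b4323_gt.NoSteinFilling

/-- `ℂ³`, the local model of complex 3-manifolds. -/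
abbrev C3 : Type := Fin 3 → ℂ

/-- `ℝ⁵` with coordinates `q = (x₁, y₁, x₂, y₂, θ)`, the universal cover of `P`. -/
abbrev R5 : Type := Fin 5 → ℝ

/-- The deck transformation of `ℝ⁵ → P` given by `n ∈ ℤ⁵`:
`(x₁, y₁, x₂, y₂, θ) ↦ (x₁ + n₀, y₁ + n₁, x₂ + n₂, y₂ + n₃, θ + n₄ - n₀ y₁ - n₂ y₂)`. -/
def deck (n : Fin 5 → ℤ) (q : R5) : R5 :=
  ![q 0 + n 0, q 1 + n 1, q 2 + n 2, q 3 + n 3, q 4 + n 4 - n 0 * q 1 - n 2 * q 3]

/-- The contact form `α = dθ + x₁ dy₁ + x₂ dy₂` at the point `q`, on the tangent vector `w`.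
It satisfies `dα = dx₁ ∧ dy₁ + dx₂ ∧ dy₂` and is invariant under the maps `deck n`. -/
def alpha (q w : R5) : ℝ := w 4 + q 0 * w 1 + q 2 * w 3

section

variable {X : Type*} [TopologicalSpace X] [ChartedSpace C3 X]

/-- `φ : X → ℝ` is smooth. -/
def SmoothFun (φ : X → ℝ) : Prop := ContMDiff 𝓘(ℝ, C3) 𝓘(ℝ, ℝ) ∞ φ

/-- `f : ℝ⁵ → X` is smooth. -/
def SmoothMap (f : R5 → X) : Prop := ContMDiff 𝓘(ℝ, R5) 𝓘(ℝ, C3) ∞ f

/-- The differential of `φ` at the point `x` of the complex 3-manifold `X`, on the tangent vector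
`v`: the derivative of `φ` in the direction `v ∈ ℂ³` in the holomorphic chart `chartAt C3 x`. The
tangent space of `X` at `x` is identified with `ℂ³` by this chart, so that its complex structure is
the multiplication by `i`. -/
noncomputable def dphi (φ : X → ℝ) (x : X) (v : C3) : ℝ :=
  deriv (fun t : ℝ => φ ((chartAt C3 x).symm (chartAt C3 x x + (t : ℂ) • v))) 0

/-- The differential of `f : ℝ⁵ → X` at `q` on `w`, with the same identification of the tangent
space of `X` at `f q` with `ℂ³`. -/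
noncomputable def df (f : R5 → X) (q w : R5) : C3 :=
  deriv (fun t : ℝ => chartAt C3 (f q) (f (q + t • w))) 0

end

/-- The Laplacian at `0` of the restriction `ζ ↦ g (z + ζ v)` of the real function `g` to a complex
line, which is four times the Levi form `∑ (∂²g/∂z_j∂z̄_k) v_j v̄_k` of `g` at `z`. -/
noncomputable def levi (g : C3 → ℝ) (z v : C3) : ℝ :=
  deriv (deriv fun t : ℝ => g (z + (t : ℂ) • v)) 0 +
    deriv (deriv fun t : ℝ => g (z + (t : ℂ) • Complex.I • v)) 0

/-- `φ` is strictly plurisubharmonic at the points of `W`: its Levi form in every holomorphic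
chart is positive there. -/
def StrictlyPsh {X : Type*} [TopologicalSpace X] [ChartedSpace C3 X] (φ : X → ℝ) (W : Set X) :
    Prop :=
  ∀ e ∈ atlas C3 X, ∀ z ∈ e.target, e.symm z ∈ W → ∀ v : C3, v ≠ 0 → 0 < levi (φ ∘ e.symm) z v

/-- `IsSteinFilling φ c f`: the sublevel set `W = {φ ≤ c}` in the complex 3-manifold `X` is a Stein
filling of the prequantization bundle `(P, ker alpha)` over `T⁴`, where `f : ℝ⁵ → X` is the
composition of the projection `ℝ⁵ → P` with a contactomorphism `P → ∂W`. -/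
structure IsSteinFilling {X : Type*} [TopologicalSpace X] [ChartedSpace C3 X]
    (φ : X → ℝ) (c : ℝ) (f : R5 → X) : Prop where
  /-- `φ` is smooth -/
  smooth : SmoothFun φ
  /-- `φ` is strictly plurisubharmonic on `W` -/
  psh : StrictlyPsh φ {x | φ x ≤ c}
  /-- `W` is compact -/
  compact : IsCompact {x | φ x ≤ c}
  /-- `c` is a regular value of `φ`, so that `∂W = {φ = c}` -/
  regular : ∀ x, φ x = c → ∃ v, dphi φ x v ≠ 0
  /-- `f` is smooth -/
  f_smooth : SmoothMap f
  /-- `f` is an immersion -/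
  f_immersion : ∀ q, Function.Injective (df f q)
  /-- the image of `f` is `∂W` -/
  f_range : range f = {x | φ x = c}
  /-- the fibres of `f` are the orbits of the deck group -/
  f_fibres : ∀ q q', f q = f q' ↔ ∃ n, q' = deck n q
  /-- `f` matches `ker alpha` with the complex tangencies of `∂W` -/
  contact : ∀ q w : R5, alpha q w = 0 ↔ dphi φ (f q) (Complex.I • df f q w) = 0

/-- Not used below: `alpha` is invariant under the deck transformations. -/
lemma alpha_deck (n : Fin 5 → ℤ) (q w : R5) :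
    alpha (deck n q) (fderiv ℝ (deck n) q w) = alpha q w := by
  have h1 : fderiv ℝ (deck n) q = H88.ST.Lact n := (H88.ST.act_hasFDerivAt n q).fderiv
  have h2 := congrArg (fun M : R5 →L[ℝ] R5 => M w 4) (H88.ST.MC_act n q)
  simp only [ContinuousLinearMap.comp_apply, H88.ST.MC_four] at h2
  rw [h1]
  exact h2

lemma levi_eq {g : C3 → ℝ} {z : C3} (hg : ContDiffAt ℝ 2 g z) (v : C3) :
    levi g z v = fderiv ℝ (fderiv ℝ g) z v v +
      fderiv ℝ (fderiv ℝ g) z (Complex.I • v) (Complex.I • v) := by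
  unfold levi
  rw [← H88.ST.deriv_deriv_line hg v, ← H88.ST.deriv_deriv_line hg (Complex.I • v)]
  rfl

/-- The prequantization bundle over the standard symplectic four-torus has no Stein filling. -/
theorem result {X : Type*} [TopologicalSpace X] [T2Space X] [ChartedSpace C3 X]
    [IsManifold 𝓘(ℂ, C3) ω X] :
    ¬ ∃ (φ : X → ℝ) (c : ℝ) (f : R5 → X), IsSteinFilling φ c f := by
  rintro ⟨φ, c, f, h⟩
  have hreal : IsManifold 𝓘(ℝ, C3) ∞ X := H88.ST.real_manifold
  have hor : H88.ST.Oriented C3 X := H88.ST.complex_oriented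
  have hV3 : Module.finrank ℂ C3 = 3 := by simp
  have hV6 : Module.finrank ℝ C3 = 6 := by
    have := Module.finrank_mul_finrank ℝ ℂ C3
    rw [Complex.finrank_real_complex, hV3] at this
    omega
  have hφ : ContMDiff 𝓘(ℝ, C3) 𝓘(ℝ, ℝ) ∞ φ := h.smooth
  have hf : ContMDiff 𝓘(ℝ, R5) 𝓘(ℝ, C3) ∞ f := h.f_smooth
  have hBd : H88.ST.Bd C3 φ c f := by
    refine ⟨hφ, h.compact, ?_, hf, ?_, ?_, h.f_fibres⟩
    · intro x hx h0
      obtain ⟨v, hv⟩ := h.regular x hx
      apply hv
      have h1 : DifferentiableAt ℝ (φ ∘ (chartAt C3 x).symm) (chartAt C3 x x) :=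
        (H88.ST.contDiffAt_comp_symm (n := 2) (chart_mem_atlas C3 x)
          ((chartAt C3 x).map_source (mem_chart_source C3 x))
          ((hφ _).of_le H88.ST.two_le_inf)).differentiableAt (by norm_num)
      have h2 := H88.ST.deriv_line h1 v
      rw [h0] at h2
      exact h2
    · intro q
      have hs : f q ∈ (chartAt C3 (f q)).source := mem_chart_source C3 _
      have h1 : ContMDiffAt 𝓘(ℝ, C3) 𝓘(ℝ, C3) ∞ (chartAt C3 (f q)) (f q) :=
        contMDiffAt_of_mem_maximalAtlas
          (IsManifold.subset_maximalAtlas (chart_mem_atlas C3 (f q))) hs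
      have h2 : DifferentiableAt ℝ (chartAt C3 (f q) ∘ f) q :=
        ((h1.comp q (hf q)).contDiffAt).differentiableAt (by simp)
      have h3 : df f q = fderiv ℝ (chartAt C3 (f q) ∘ f) q := by
        funext w
        exact H88.ST.deriv_line h2 w
      rw [← h3]
      exact h.f_immersion q
    · intro x
      have := Set.ext_iff.1 h.f_range x
      rw [mem_range, mem_ofPred_eq] at this
      exact this.symm
  refine H88.ST.real_main hV6 hor hBd ?_
  intro x₀ hx₀ Ω hΩ hΩt hz
  have hx₀s : x₀ ∈ (chartAt C3 x₀).source := mem_chart_source C3 x₀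
  have hg : ContDiffOn ℝ 2 (φ ∘ (chartAt C3 x₀).symm) Ω := fun z hz =>
    (H88.ST.contDiffAt_comp_symm (n := 2) (chart_mem_atlas C3 x₀) (hΩt hz)
      ((hφ _).of_le H88.ST.two_le_inf)).contDiffWithinAt
  have hgz := hg.contDiffAt (hΩ.mem_nhds hz)
  by_cases hd : fderiv ℝ (φ ∘ (chartAt C3 x₀).symm) (chartAt C3 x₀ x₀) = 0
  · obtain ⟨v₁, v₂, v₃, κ, hκ, hB⟩ := H88.ST.three_dirs hV3
      (B := fderiv ℝ (fderiv ℝ (φ ∘ (chartAt C3 x₀).symm)) (chartAt C3 x₀ x₀))
      (fun v w => by
        have h1 : IsSymmSndFDerivAt ℝ (φ ∘ (chartAt C3 x₀).symm) (chartAt C3 x₀ x₀) :=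
          hgz.isSymmSndFDerivAt (by simp)
        exact h1 v w)
      (fun v hv => by
        rw [← levi_eq hgz]
        refine h.psh (chartAt C3 x₀) (chart_mem_atlas C3 x₀) _
          ((chartAt C3 x₀).map_source hx₀s) ?_ v hv
        rw [(chartAt C3 x₀).left_inv hx₀s]
        exact hx₀.le)
    exact H88.ST.good_crit hΩ hz hg hd hκ hB
  · exact H88.ST.good_noncrit hΩ hz hg hd

end Pool.Agent.Results.MP_4b4323_gt.NoSteinFilling
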